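import Pool.Agent.Work.MP_91103f_lv.Defs

/-!
# Block statements for the theorem on MP_91103f_co

Proofs: see `BLUEPRINT.md`.
-/

namespace Pool.TriLev

open Pool.Agent.Work.MP_91103f_co

open Classical

noncomputable section

/-! ## Part A: the level structure of a triangulation with degrees at least six -/

/-- DESC: two vertices of the same level have descending paths which meet for the first time at
their last vertex. -/
def Stmt_DESC : Prop :=
  ∀ {V : Type} {G : SimpleGraph V}, G.Connected → ∀ (r a b : V), G.dist r a = G.dist r b →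
    ∃ (s : ℕ) (A B : ℕ → V), A 0 = a ∧ B 0 = b ∧ A s = B s ∧ (∀ t < s, A t ≠ B t) ∧
      (∀ t < s, Ch G r (A (t + 1)) (A t)) ∧ (∀ t < s, Ch G r (B (t + 1)) (B t))

/-- POLY: the region of a bigon (`e = 0`, common top `A 0 = B 0`) or of a triangle (`e = 1`,
adjacent tops `A 0`, `B 0` of the same level) with two descending sides, and Gauss-Bonnet. -/
def Stmt_POLY : Prop :=
  ∀ {V : Type} {G : SimpleGraph V} {F : Set (Finset V)}, Tri V G F →
    ∀ (r : V) (s e : ℕ) (A B : ℕ → V), A s = B s →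
      (∀ t < s, Ch G r (A (t + 1)) (A t)) → (∀ t < s, Ch G r (B (t + 1)) (B t)) →
      (∀ t, 1 ≤ t → t < s → A t ≠ B t) →
      (e = 0 ∧ A 0 = B 0 ∧ 2 ≤ s ∨ e = 1 ∧ G.Adj (A 0) (B 0) ∧ 1 ≤ s) →
      ∃ S : Finset (Finset V), (∀ f ∈ S, f ∈ F) ∧
        (∀ t, 1 ≤ t → t < s → ∀ c, G.Adj (A t) c →
          (Odd (ct S s(A t, c)) ↔ c = A (t - 1) ∨ c = A (t + 1))) ∧
        (∀ t, 1 ≤ t → t < s → ∀ c, G.Adj (B t) c →
          (Odd (ct S s(B t, c)) ↔ c = B (t - 1) ∨ c = B (t + 1))) ∧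
        (∀ c, G.Adj (A s) c → (Odd (ct S s(A s, c)) ↔ c = A (s - 1) ∨ c = B (s - 1))) ∧
        (e = 0 → (∀ c, G.Adj (A 0) c → (Odd (ct S s(A 0, c)) ↔ c = A 1 ∨ c = B 1)) ∧
          6 ≤ ∑ t ∈ Finset.Ico 1 s, (3 - (av S (A t) : ℤ)) +
            ∑ t ∈ Finset.Ico 1 s, (3 - (av S (B t) : ℤ)) + (3 - (av S (A s) : ℤ)) +
            (3 - (av S (A 0) : ℤ))) ∧
        (e = 1 → (∀ c, G.Adj (A 0) c → (Odd (ct S s(A 0, c)) ↔ c = A 1 ∨ c = B 0)) ∧
          (∀ c, G.Adj (B 0) c → (Odd (ct S s(B 0, c)) ↔ c = B 1 ∨ c = A 0)) ∧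
          6 ≤ ∑ t ∈ Finset.Ico 1 s, (3 - (av S (A t) : ℤ)) +
            ∑ t ∈ Finset.Ico 1 s, (3 - (av S (B t) : ℤ)) + (3 - (av S (A s) : ℤ)) +
            (3 - (av S (A 0) : ℤ)) + (3 - (av S (B 0) : ℤ)))

/-- FAN: the faces of a region at a boundary vertex `v` with exactly two boundary edges `v p`,
`v q` form a fan from `p` to `q`. -/
def Stmt_FAN : Prop :=
  ∀ {V : Type} {G : SimpleGraph V} {F : Set (Finset V)}, Tri V G F →
    ∀ (S : Finset (Finset V)) (v p q : V), (∀ f ∈ S, f ∈ F) → G.Adj v p → G.Adj v q → p ≠ q →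
      (∀ c, G.Adj v c → (Odd (ct S s(v, c)) ↔ c = p ∨ c = q)) →
      ∃ g : ℕ → V, 1 ≤ av S v ∧ g 0 = p ∧ g (av S v) = q ∧
        ∀ i < av S v, T3 F v (g i) (g (i + 1)) ∧ ({v, g i, g (i + 1)} : Finset V) ∈ S

/-- SIDE: the turning along a descending side of a region. -/
def Stmt_SIDE : Prop :=
  ∀ {V : Type} {G : SimpleGraph V} {F : Set (Finset V)}, Tri V G F →
    ∀ (r : V) (S : Finset (Finset V)) (s : ℕ) (d : ℕ → V), (∀ f ∈ S, f ∈ F) → 1 ≤ s →
      (∀ t < s, Ch G r (d (t + 1)) (d t)) → Odd (ct S s(d 0, d 1)) →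
      (∀ t, 1 ≤ t → t < s → ∀ c, G.Adj (d t) c →
        (Odd (ct S s(d t, c)) ↔ c = d (t - 1) ∨ c = d (t + 1))) →
      ∑ t ∈ Finset.Ico 1 s, (3 - (av S (d t) : ℤ)) ≤ 1 ∧
      ((∃ y, T3 F (d 0) (d 1) y ∧ ({d 0, d 1, y} : Finset V) ∈ S ∧ G.dist r y = G.dist r (d 0)) →
        ∑ t ∈ Finset.Ico 1 s, (3 - (av S (d t) : ℤ)) ≤ 0)

/-- LV: two parents of a vertex span a face with it. -/
def Stmt_LV : Prop :=
  ∀ {V : Type} {G : SimpleGraph V} {F : Set (Finset V)}, Tri V G F →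
    ∀ (r x a b : V), Ch G r a x → Ch G r b x → a ≠ b → T3 F x a b

/-- LH: two adjacent vertices of the same level have a common parent spanning a face with them. -/
def Stmt_LH : Prop :=
  ∀ {V : Type} {G : SimpleGraph V} {F : Set (Finset V)}, Tri V G F →
    ∀ (r x y : V), G.Adj x y → G.dist r x = G.dist r y →
      ∃ w, Ch G r w x ∧ Ch G r w y ∧ T3 F x y w

/-- LINK: the link of a vertex `x` other than the root: a vertex of the same level, then `u`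
children, then a vertex of the same level, then one or two parents. -/
def Stmt_LINK : Prop :=
  ∀ {V : Type} {G : SimpleGraph V} {F : Set (Finset V)}, Tri V G F →
    ∀ (r x : V), x ≠ r → ∃ (a b : V) (u : ℕ), T3 F x a b ∧ 2 ≤ u ∧
      ((G.neighborSet x).ncard = u + 3 ∨ (G.neighborSet x).ncard = u + 4) ∧
      G.dist r a = G.dist r x ∧
      (∀ i, 1 ≤ i → i ≤ u → Ch G r x (z F x a b i)) ∧
      G.dist r (z F x a b (u + 1)) = G.dist r x ∧
      (∀ i, u + 2 ≤ i → i < (G.neighborSet x).ncard → Ch G r (z F x a b i) x)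

/-- UPF: two adjacent vertices of the same level have exactly one common child. -/
def Stmt_UPF : Prop :=
  ∀ {V : Type} {G : SimpleGraph V} {F : Set (Finset V)}, Tri V G F →
    ∀ (r x y : V), G.Adj x y → G.dist r x = G.dist r y →
      ∃ c, Ch G r x c ∧ Ch G r y c ∧ T3 F x y c ∧ ∀ c', Ch G r x c' → Ch G r y c' → c' = c

/-- NCH: the number of children and the number of parents (with the notation of LINK). -/
def Stmt_NCH : Prop :=
  ∀ {V : Type} {G : SimpleGraph V} {F : Set (Finset V)}, Tri V G F →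
    ∀ (r x a b : V) (u : ℕ), x ≠ r → T3 F x a b → 2 ≤ u →
      ((G.neighborSet x).ncard = u + 3 ∨ (G.neighborSet x).ncard = u + 4) →
      G.dist r a = G.dist r x →
      (∀ i, 1 ≤ i → i ≤ u → Ch G r x (z F x a b i)) →
      G.dist r (z F x a b (u + 1)) = G.dist r x →
      (∀ i, u + 2 ≤ i → i < (G.neighborSet x).ncard → Ch G r (z F x a b i) x) →
      nch G r x = u ∧
      (∀ c, Ch G r x c → ∃ i, 1 ≤ i ∧ i ≤ u ∧ c = z F x a b i) ∧
      (∀ c, Ch G r c x → ∃ i, u + 2 ≤ i ∧ i < (G.neighborSet x).ncard ∧ c = z F x a b i) ∧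
      (∀ c, G.Adj x c → G.dist r c = G.dist r x → c = a ∨ c = z F x a b (u + 1)) ∧
      ((∃ p, ∀ q, Ch G r q x → q = p) ↔ (G.neighborSet x).ncard = u + 3)

/-- CYC: the field `cyc` of `LevStr`. -/
def Stmt_CYC : Prop :=
  ∀ {V : Type} {G : SimpleGraph V} {F : Set (Finset V)}, Tri V G F →
    ∀ (r : V) (m : ℕ) (x : ℕ → V), 3 ≤ m → x m = x 0 →
    (∀ i j, i < m → j < m → x i = x j → i = j) →
    (∀ t < m, G.Adj (x t) (x (t + 1))) → (∀ t < m, G.dist r (x t) = G.dist r (x 0)) →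
    (∀ t < m, nch G r (x t) = 2) → False

/-- LS: everything together. -/
def Stmt_LS : Prop :=
  ∀ {V : Type} {G : SimpleGraph V} {F : Set (Finset V)}, Tri V G F → ∀ r : V, LevStr G r

/-! ## Part B: routes -/

/-- PHI: properties of `Phi` and `Bet`. -/
def Stmt_PHI : Prop :=
  ∀ {V : Type} {G : SimpleGraph V} {r : V}, LevStr G r →
    (∀ x, x ≠ r → ∃ c c', c ≠ c' ∧ Ch G r x c ∧ Ch G r x c' ∧ Ch G r c (Phi G r x) ∧
      Ch G r c' (Phi G r x)) ∧
    (∀ x x', x ≠ r → x' ≠ r → Phi G r x = Phi G r x' → x = x') ∧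
    (∀ x y c c', x ≠ r → nch G r x = 2 → c ≠ c' → Ch G r x c → Ch G r x c' → Ch G r c y →
      Ch G r c' y → Phi G r x = y) ∧
    (∀ x, x ≠ r → 3 ≤ nch G r x → Ch G r x (Bet G r x) ∧ 3 ≤ nch G r (Bet G r x) ∧
      ∀ p, Ch G r p (Bet G r x) → p = x)

/-- TRI: the descendants of a good vertex form a flat triangle. -/
def Stmt_TRI : Prop :=
  ∀ {V : Type} {G : SimpleGraph V} {r : V}, LevStr G r →
    ∀ (H : ℕ) (x : V), x ≠ r → Good G r H x → ∃ ps : ℕ → ℕ → V, FlatTri G r H x ps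

/-- NEW: above a bad vertex there is a new vertex. -/
def Stmt_NEW : Prop :=
  ∀ {V : Type} {G : SimpleGraph V} {r : V}, LevStr G r →
    ∀ (H : ℕ) (x : V), Even H → x ≠ r → ¬ Good G r H x →
      ∃ (w : V) (j t : ℕ), j < H ∧ Up G r j x w ∧ 1 ≤ t ∧ j + t ≤ H ∧ Even (j + t) ∧
        (7 ≤ (G.neighborSet w).ncard ∨ w = x ∧ j = 0 ∧ ∃ p, ∀ q, Ch G r q x → q = p) ∧
        Up G r H x ((Phi G r)^[(H - j - t) / 2] ((Bet G r)^[t] w)) ∧
        ∀ x', x' ≠ r → G.dist r x' = G.dist r x →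
          (Phi G r)^[H / 2] x' ≠ (Phi G r)^[(H - j - t) / 2] ((Bet G r)^[t] w)

/-- POT: the potential function argument. -/
def Stmt_POT : Prop :=
  ∀ {V : Type} (bad : V → Prop) (P N : V → V) (M : ℕ) (x0 : V) (A : ℕ → Finset V), 1 ≤ M →
    A 0 = {x0} → (∀ i, A (i + 1) = (A i).image P ∪ ((A i).filter bad).image N) →
    (∀ i, ∀ x ∈ A i, ∀ x' ∈ A i, P x = P x' → x = x') →
    (∀ i, ∀ x ∈ A i, bad x → ∀ x' ∈ A i, P x' ≠ N x) →
    (∀ i y, (((A i).filter bad).filter (fun x => N x = y)).card ≤ M) →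
    ∀ i, ∃ (x : V) (b : ℕ), PR bad P N x0 i x b ∧ (M + 1) ^ b ≤ (A i).card * M ^ b

/-- ROUTE: there is a route with few bad steps if there are few vertices of degree at least
seven. -/
def Stmt_ROUTE : Prop :=
  ∀ {V : Type} {G : SimpleGraph V} {r : V}, LevStr G r →
    ∀ (H : ℕ) (x0 : V), Even H → 2 ≤ H → x0 ≠ r → ∀ i : ℕ, ∃ (x : V) (b : ℕ),
      Rt G r H x0 i x b ∧
      (2 ^ H + 1) ^ b ≤ (cones G r x0 (i * H) + 1) * (i * H + 1) * (2 ^ H) ^ b

/-! ## Part C: the triangular lattice (Hammersley-Welsh) -/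

/-- HWH: peeling the highest row from half-space walks. -/
def Stmt_HWH : Prop :=
  ∀ (k n : ℕ), (HSk (k + 1) n).ncard ≤
    (HSk k n).ncard + ∑ m ∈ Finset.Icc 1 n, (BRk (k + 1) m).ncard * (HSk k (n - m)).ncard

/-- HWC: cutting a walk at its last lowest point. -/
def Stmt_HWC : Prop :=
  ∀ n : ℕ, c6 n ≤ ∑ m ∈ Finset.range (n + 1), (HS (m + 1)).ncard * (HS (n - m)).ncard

/-- HW: bridges grow as fast as all walks. -/
def Stmt_HW : Prop :=
  ∀ ρ ρ' C : ℝ, 0 < ρ → ρ < ρ' → (∀ n, (br n : ℝ) ≤ C * ρ ^ n) →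
    ∃ C' : ℝ, ∀ n, (c6 n : ℝ) ≤ C' * ρ' ^ n

/-- VB: there are many vertical bridges. -/
def Stmt_VB : Prop :=
  ∀ ρ : ℝ, 0 < ρ →
    ENNReal.ofReal ρ < Filter.limsup (fun n : ℕ => ((c6 n : ENNReal)) ^ ((1 : ℝ) / n))
      Filter.atTop →
    ∃ N h : ℕ, 0 < N ∧ 0 < h ∧ 2 * h ≤ N ∧ ρ ^ N ≤ ((VB N h).ncard : ℝ)

/-! ## Part D: counting walks in `T` -/

/-- CONC: concatenation. -/
def Stmt_CONC : Prop :=
  ∀ {V : Type} {G : SimpleGraph V} {r : V}, (∀ x, (G.neighborSet x).Finite) →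
    ∀ (x y w : V) (n n' : ℕ), G.dist r x ≤ G.dist r y → G.dist r y ≤ G.dist r w →
      (BRS G r x y n).ncard * (BRS G r y w n').ncard ≤ (BRS G r x w (n + n')).ncard

/-- UPW: an up-path is a walk. -/
def Stmt_UPW : Prop :=
  ∀ {V : Type} {G : SimpleGraph V} {r : V}, (∀ x, (G.neighborSet x).Finite) →
    ∀ (x y : V) (H : ℕ), Up G r H x y → 1 ≤ (BRS G r x y H).ncard ∧
      G.dist r y = G.dist r x + H

/-- VM: many walks through a flat triangle. -/
def Stmt_VM : Prop :=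
  ∀ {V : Type} {G : SimpleGraph V} {r : V}, (∀ x, (G.neighborSet x).Finite) →
    ∀ (N h m : ℕ) (x : V) (ps : ℕ → ℕ → V), 0 < N → 0 < h →
      FlatTri G r (2 * N + 2 * h * m) x ps →
      (VB N h).ncard ^ m ≤
        (BRS G r x ((Phi G r)^[N + h * m] x) (2 * N + m * N)).ncard

/-- COUNT: walks along a route. -/
def Stmt_COUNT : Prop :=
  ∀ {V : Type} {G : SimpleGraph V} {r : V}, LevStr G r →
    ∀ (H K l : ℕ) (x0 : V), Even H → x0 ≠ r →
      (∀ x, x ≠ r → Good G r H x → K ≤ (BRS G r x ((Phi G r)^[H / 2] x) l).ncard) →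
      ∀ (i b : ℕ) (x : V), Rt G r H x0 i x b →
        b ≤ i ∧ G.dist r x = G.dist r x0 + i * H ∧
        K ^ (i - b) ≤ (BRS G r x0 x ((i - b) * l + b * H)).ncard

/-! ## The theorem -/

/-- The theorem, with `Tri` for the hypotheses of the frozen statement. -/
def Stmt_MAIN : Prop :=
  ∀ ε : ℝ, 0 < ε → ∃ δ : ℝ, 0 < δ ∧
    ∀ (V : Type) (G : SimpleGraph V) (F : Set (Finset V)), Tri V G F → ∀ v x0 : V,
      (∃ᶠ n : ℕ in Filter.atTop, (({y | 7 ≤ (G.neighborSet y).ncard ∧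
        G.dist v y = G.dist v x0 + G.dist x0 y ∧ G.dist x0 y ≤ n}.ncard : ℕ) : ℝ) ≤
          (1 + δ) ^ n) →
      Filter.limsup (fun n : ℕ => ((c6 n : ENNReal)) ^ ((1 : ℝ) / n)) Filter.atTop ≤
        ENNReal.ofReal (1 + ε) *
          Filter.limsup (fun n : ℕ => (((PL G v n).ncard : ENNReal)) ^ ((1 : ℝ) / n))
            Filter.atTop

end

end Pool.TriLev
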