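import Mathlib
import Pool.Agent.Work.MP_91103f_co.Dev1
import Pool.Agent.Work.MP_91103f_co.Paths
import Pool.Agent.Work.MP_91103f_co.Growth
import Pool.Agent.Work.MP_91103f_co.T6

/-!
# Definitions for the theorem on triangulations with subexponentially many curved vertices
(MP_91103f_co)
-/

namespace Pool.TriLev

open Pool.Agent.Work.MP_91103f_co

open Classical

noncomputable section

section

variable {V : Type} (G : SimpleGraph V) (r : V)

/-- `c` is a child of `x` (and `x` a parent of `c`): they are adjacent and `c` is one level higher,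
the level of a vertex being its distance from the root `r`. -/
def Ch (x c : V) : Prop := G.Adj x c ∧ G.dist r c = G.dist r x + 1

/-- the number of children -/
def nch (x : V) : ℕ := {c | Ch G r x c}.ncard

/-- `y` is reached from `x` by `j` steps upwards. -/
def Up : ℕ → V → V → Prop
  | 0, x, y => x = y
  | j + 1, x, y => ∃ c, Ch G r x c ∧ Up j c y

/-- a common child of two children of `x` -/
def Phi (x : V) : V :=
  if h : ∃ y, ∃ c c', c ≠ c' ∧ Ch G r x c ∧ Ch G r x c' ∧ Ch G r c y ∧ Ch G r c' y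
  then h.choose else x

/-- a child of `x` whose only parent is `x` -/
def Bet (x : V) : V :=
  if h : ∃ c, Ch G r x c ∧ ∀ p, Ch G r p c → p = x then h.choose else x

/-- All descendants of `x` less than `H` levels above `x` have exactly two children. -/
def Good (H : ℕ) (x : V) : Prop := ∀ j < H, ∀ z, Up G r j x z → nch G r z = 2

/-- The combinatorial properties of the level structure of a plane triangulation with degrees at
least six which are used. -/
structure LevStr : Prop where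
  conn : G.Connected
  fin : ∀ x, (G.neighborSet x).Finite
  par2 : ∀ x a b c, Ch G r a x → Ch G r b x → Ch G r c x → a = b ∨ a = c ∨ b = c
  parAdj : ∀ x a b, Ch G r a x → Ch G r b x → a ≠ b → G.Adj a b
  uniq : ∀ x x' c c', x ≠ x' → Ch G r x c → Ch G r x' c → Ch G r x c' → Ch G r x' c' → c = c'
  sib : ∀ x x', G.Adj x x' → G.dist r x = G.dist r x' → ∃ c, Ch G r x c ∧ Ch G r x' c
  two : ∀ x, x ≠ r → 2 ≤ nch G r x
  adjCh : ∀ x, x ≠ r → ∃ c c', c ≠ c' ∧ Ch G r x c ∧ Ch G r x c' ∧ G.Adj c c'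
  chAdj : ∀ x c c', x ≠ r → nch G r x = 2 → Ch G r x c → Ch G r x c' → c ≠ c' → G.Adj c c'
  shr : ∀ x c, x ≠ r → nch G r x = 2 → Ch G r x c → ∃ p, p ≠ x ∧ Ch G r p c
  three : ∀ x, x ≠ r → 3 ≤ nch G r x → ∃ c, Ch G r x c ∧ ∀ p, Ch G r p c → p = x
  one : ∀ x p, x ≠ r → (∀ q, Ch G r q x → q = p) → 3 ≤ nch G r x
  deg7 : ∀ x, x ≠ r → 3 ≤ nch G r x → (G.neighborSet x).ncard ≤ 6 → ∃ p, ∀ q, Ch G r q x → q = p
  cyc : ∀ (m : ℕ) (x : ℕ → V), 3 ≤ m → x m = x 0 →
    (∀ i j, i < m → j < m → x i = x j → i = j) →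
    (∀ t < m, G.Adj (x t) (x (t + 1))) → (∀ t < m, G.dist r (x t) = G.dist r (x 0)) →
    (∀ t < m, nch G r (x t) = 2) → False

/-- A flat triangle of height `H` with apex `x`: `ps j i`, `i ≤ j ≤ H`, is the `i`-th vertex of the
`j`-th row. -/
structure FlatTri (H : ℕ) (x : V) (ps : ℕ → ℕ → V) : Prop where
  apex : ps 0 0 = x
  lev : ∀ j i, i ≤ j → j ≤ H → G.dist r (ps j i) = G.dist r x + j
  row : ∀ j i, i < j → j ≤ H → G.Adj (ps j i) (ps j (i + 1))
  chl : ∀ j i, i ≤ j → j < H → Ch G r (ps j i) (ps (j + 1) i)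
  chr : ∀ j i, i ≤ j → j < H → Ch G r (ps j i) (ps (j + 1) (i + 1))
  inj : ∀ j i i', i ≤ j → i' ≤ j → j ≤ H → ps j i = ps j i' → i = i'
  phi : ∀ j i, i ≤ j → j + 2 ≤ H → Phi G r (ps j i) = ps (j + 2) (i + 1)

/-- Self-avoiding walks of length `n` from `x` to `y` which stay above the level of `x` after the
start and do not exceed the level of `y`. -/
def BRS (x y : V) (n : ℕ) : Set (List V) :=
  {L | L ∈ PL G x n ∧ L.getLastD x = y ∧ ∀ p ∈ L, G.dist r x < G.dist r p ∧
    G.dist r p ≤ G.dist r y}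

/-- A route of `i` macro steps (of `H` levels each) from `x0` to `x`, of which `b` are bad. -/
inductive Rt (H : ℕ) (x0 : V) : ℕ → V → ℕ → Prop
  | zero : Rt H x0 0 x0 0
  | good (i : ℕ) (x : V) (b : ℕ) : Rt H x0 i x b → Good G r H x →
      Rt H x0 (i + 1) ((Phi G r)^[H / 2] x) b
  | bad (i : ℕ) (x : V) (b : ℕ) (y : V) : Rt H x0 i x b → Up G r H x y →
      Rt H x0 (i + 1) y (b + 1)

/-- the number of vertices of degree at least seven which are reached from `x0` by at most `n`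
steps upwards -/
def cones (x0 : V) (n : ℕ) : ℕ :=
  {y | 7 ≤ (G.neighborSet y).ncard ∧ ∃ j ≤ n, Up G r j x0 y}.ncard

end

/-- An abstract route: `P` is always allowed, `N` only at bad points, and steps from bad points
cost one. -/
inductive PR {V : Type} (bad : V → Prop) (P N : V → V) (x0 : V) : ℕ → V → ℕ → Prop
  | zero : PR bad P N x0 0 x0 0
  | good (i : ℕ) (x : V) (b : ℕ) : PR bad P N x0 i x b → ¬ bad x → PR bad P N x0 (i + 1) (P x) b
  | bad1 (i : ℕ) (x : V) (b : ℕ) : PR bad P N x0 i x b → bad x →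
      PR bad P N x0 (i + 1) (P x) (b + 1)
  | bad2 (i : ℕ) (x : V) (b : ℕ) : PR bad P N x0 i x b → bad x →
      PR bad P N x0 (i + 1) (N x) (b + 1)

/-! ## Walks in the triangular lattice -/

/-- number of self-avoiding walks of length `n` in the triangular lattice -/
def c6 (n : ℕ) : ℕ := (PL T6 (0, 0) n).ncard

/-- half-space walks -/
def HS (n : ℕ) : Set (List (ℤ × ℤ)) := {L | L ∈ PL T6 (0, 0) n ∧ ∀ p ∈ L, 0 < p.2}

/-- half-space walks of height at most `k` -/
def HSk (k n : ℕ) : Set (List (ℤ × ℤ)) := {L | L ∈ PL T6 (0, 0) n ∧ ∀ p ∈ L, 0 < p.2 ∧ p.2 ≤ k}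

/-- bridges of height `k` -/
def BRk (k n : ℕ) : Set (List (ℤ × ℤ)) :=
  {L | L ∈ PL T6 (0, 0) n ∧ (∀ p ∈ L, 0 < p.2 ∧ p.2 ≤ k) ∧ (L.getLastD (0, 0)).2 = k}

/-- number of bridges of length `n` -/
def br (n : ℕ) : ℕ := ∑ k ∈ Finset.range (n + 1), (BRk k n).ncard

/-- Vertical bridges: from `(0,0)` to the point vertically above in row `2h`. -/
def VB (N h : ℕ) : Set (List (ℤ × ℤ)) :=
  {L | L ∈ PL T6 (0, 0) N ∧ L.getLastD (0, 0) = (-(h : ℤ), 2 * (h : ℤ)) ∧
    ∀ p ∈ L, 0 < p.2 ∧ p.2 ≤ 2 * (h : ℤ)}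

end

end Pool.TriLev
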